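import Mathlib
import Pool.Agent.Helper96.Fc.Q3core
import Pool.Agent.Helper96.Fc.Full2
import Pool.Agent.Helper40.Fc96.No5s

/-!
# A countable transitive model of ZFC + (H) in which `2 ^ 2 ^ (< ℵ_ω) ↛ (ℵ_ω, 5)⁴` and
`2 ^ 2 ^ ℵ_ω ↛ (ℵ_ω, 5)⁴`
-/

namespace Pool.Agent.Results.MP_3ae4a3_lc.ConsistentQuadruples

open Pool.Agent.Helper96.Fc

/-- In the model `N` the relation `|S| → (A, 5)⁴` fails, witnessed by the colouring of the
four-element subsets of the set `S` that gives the colour `1` to the elements of `F ∈ N` and the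
colour `0` to all the others:
* every set `H ⊆ S` of the model with `|A| ≤ |H|` in the model contains four distinct points
  `w, x, y, z` such that `{w, x, y, z}` has the colour `1`;
* no five distinct points of `S` have all their quadruples of colour `1`. -/
structure NotArrow54 (N : Set ZFSet.{0}) (A S F : ZFSet.{0}) : Prop where
  mem : F ∈ N
  large : ∀ H ∈ N, (∀ x ∈ H, x ∈ S) → Onto N H A →
    ∃ w ∈ H, ∃ x ∈ H, ∃ y ∈ H, ∃ z ∈ H, w ≠ x ∧ w ≠ y ∧ w ≠ z ∧ x ≠ y ∧ x ≠ z ∧ y ≠ z ∧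
      ({w, x, y, z} : ZFSet.{0}) ∈ F
  five : ∀ v ∈ S, ∀ w ∈ S, ∀ x ∈ S, ∀ y ∈ S, ∀ z ∈ S, v ≠ w → v ≠ x → v ≠ y → v ≠ z →
    w ≠ x → w ≠ y → w ≠ z → x ≠ y → x ≠ z → y ≠ z →
    ¬ (({v, w, x, y} : ZFSet.{0}) ∈ F ∧ ({v, w, x, z} : ZFSet.{0}) ∈ F ∧
      ({v, w, y, z} : ZFSet.{0}) ∈ F ∧ ({v, x, y, z} : ZFSet.{0}) ∈ F ∧
      ({w, x, y, z} : ZFSet.{0}) ∈ F)

/-- **Main theorem.** There is a countable transitive model `N` of `ZFC` that satisfies (H) and in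
which, with `A = ℵ_ω` and `B = 2 ^ (< ℵ_ω)`, the relation `|S| → (A, 5)⁴` fails
* for the set `S` of all subsets of `B` (so that `|S| = 2 ^ 2 ^ (< ℵ_ω)`), and
* for the set `S` of all sets of subsets of `A` (so that `|S| = 2 ^ 2 ^ ℵ_ω`). -/
theorem result : ∃ N : Set ZFSet.{0}, N.Countable ∧ IsZFC N ∧
    ∃ (a b c : ℕ → ZFSet.{0}) (A B : ZFSet.{0}), Hyp N a b c A B ∧
      (∃ S : ZFSet.{0}, IsPow N B S ∧ ∃ F : ZFSet.{0}, NotArrow54 N A S F) ∧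
      ∃ T S : ZFSet.{0}, IsPow N A T ∧ IsPow N T S ∧ ∃ F : ZFSet.{0}, NotArrow54 N A S F := by
  obtain ⟨N, h1, h2, a, b, c, A, B, h3, ⟨S, h4, F, h5, h6, h7⟩, T, S', h8, h9, F', h10, h11,
    h12⟩ := main3 q3core no5s
  exact ⟨N, h1, h2, a, b, c, A, B, h3, ⟨S, h4, F, h5, h6, h7⟩, T, S', h8, h9, F', h10, h11, h12⟩

end Pool.Agent.Results.MP_3ae4a3_lc.ConsistentQuadruples
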