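import Mathlib
import Pool.Agent.Helper96.Fc.Final1

/-!
# A countable transitive model of ZFC + (H) in which `2 ^ (< ℵ_ω) ↛ (ℵ_ω, 4)³`
-/

namespace Pool.Agent.Results.MP_3ae4a3_lc.ConsistentTriples

open Pool.Agent.Helper96.Fc

/-- In the model `N` the relation `B → (A, 4)³` fails, witnessed by the colouring of the
three-element subsets of `B` that gives the colour `1` to the elements of `F ∈ N` and the colour
`0` to all the others:
* every set `H ⊆ B` of the model with `|A| ≤ |H|` in the model contains three distinct points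
  `x, y, z` such that `{x, y, z}` has the colour `1`;
* no four distinct points of `B` have all their triples of colour `1`. -/
structure NotArrow43 (N : Set ZFSet.{0}) (A B F : ZFSet.{0}) : Prop where
  mem : F ∈ N
  large : ∀ H ∈ N, (∀ x ∈ H, x ∈ B) → Onto N H A →
    ∃ x ∈ H, ∃ y ∈ H, ∃ z ∈ H, x ≠ y ∧ x ≠ z ∧ y ≠ z ∧ ({x, y, z} : ZFSet.{0}) ∈ F
  four : ∀ w ∈ B, ∀ x ∈ B, ∀ y ∈ B, ∀ z ∈ B, w ≠ x → w ≠ y → w ≠ z → x ≠ y → x ≠ z → y ≠ z →
    ¬ (({w, x, y} : ZFSet.{0}) ∈ F ∧ ({w, x, z} : ZFSet.{0}) ∈ F ∧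
      ({w, y, z} : ZFSet.{0}) ∈ F ∧ ({x, y, z} : ZFSet.{0}) ∈ F)

/-- **Main theorem.** There is a countable transitive model `N` of `ZFC` that satisfies (H) and in
which, with `A = ℵ_ω` and `B = 2 ^ (< ℵ_ω)`, the relation `B → (A, 4)³` fails. -/
theorem result : ∃ N : Set ZFSet.{0}, N.Countable ∧ IsZFC N ∧
    ∃ (a b c : ℕ → ZFSet.{0}) (A B : ZFSet.{0}), Hyp N a b c A B ∧
      ∃ F : ZFSet.{0}, NotArrow43 N A B F := by
  obtain ⟨N, h1, h2, a, b, c, A, B, h3, F, h4, h5, h6⟩ := main1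
  exact ⟨N, h1, h2, a, b, c, A, B, h3, F, h4, h5, h6⟩

end Pool.Agent.Results.MP_3ae4a3_lc.ConsistentTriples
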